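import Mathlib
import Pool.Agent.Q131.NA.Defs

set_option autoImplicit false

namespace Pool.Agent.Q230.NA7

open Finset Pool.Agent.Q131.NA

variable {G : Type} [AddCommGroup G] [Fintype G] [DecidableEq G]

theorem cnt1 (F : G → G) (hF : Function.Injective F) (A : Finset G) (P : G → Prop)
    [DecidablePred P] (h : ∀ x, P x → F x ∈ A) : (univ.filter P).card ≤ A.card := by
  apply Finset.card_le_card_of_injOn F
  · intro x hx
    have hx' : P x := by simpa using hx
    exact h x hx'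
  · exact hF.injOn

theorem cntx (P : G × G × G → Prop) [DecidablePred P] (m : ℕ)
    (h : ∀ s s', ∃ (F : G → G) (A : Finset G), Function.Injective F ∧ A.card ≤ m ∧
      ∀ x, P (x, s, s') → F x ∈ A) :
    (univ.filter P).card ≤ m * Fintype.card G ^ 2 := by
  classical
  rw [Finset.card_filter, Fintype.sum_prod_type, Finset.sum_comm]
  have h1 : ∀ p ∈ (univ : Finset (G × G)), (∑ x : G, if P (x, p) then 1 else 0) ≤ m := by
    rintro ⟨s, s'⟩ _
    obtain ⟨F, A, hF, hA, hP⟩ := h s s'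
    rw [← Finset.card_filter]
    exact (cnt1 F hF A (fun x => P (x, s, s')) hP).trans hA
  refine (Finset.sum_le_card_nsmul _ _ m h1).trans ?_
  simp only [Finset.card_univ, Fintype.card_prod, smul_eq_mul]
  apply le_of_eq; ring

theorem cnts (P : G × G × G → Prop) [DecidablePred P] (m : ℕ)
    (h : ∀ x s', ∃ (F : G → G) (A : Finset G), Function.Injective F ∧ A.card ≤ m ∧
      ∀ s, P (x, s, s') → F s ∈ A) :
    (univ.filter P).card ≤ m * Fintype.card G ^ 2 := by
  classical
  rw [Finset.card_filter, Fintype.sum_prod_type]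
  have h1 : ∀ x ∈ (univ : Finset G), (∑ p : G × G, if P (x, p) then 1 else 0) ≤
      Fintype.card G * m := by
    intro x _
    rw [Fintype.sum_prod_type, Finset.sum_comm]
    have h2 : ∀ s' ∈ (univ : Finset G), (∑ s : G, if P (x, s, s') then 1 else 0) ≤ m := by
      intro s' _
      obtain ⟨F, A, hF, hA, hP⟩ := h x s'
      rw [← Finset.card_filter]
      exact (cnt1 F hF A (fun s => P (x, s, s')) hP).trans hA
    refine (Finset.sum_le_card_nsmul _ _ m h2).trans ?_
    simp
  refine (Finset.sum_le_card_nsmul _ _ _ h1).trans ?_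
  simp only [Finset.card_univ, smul_eq_mul]
  apply le_of_eq; ring

theorem cntt (P : G × G × G → Prop) [DecidablePred P] (m : ℕ)
    (h : ∀ x s, ∃ (F : G → G) (A : Finset G), Function.Injective F ∧ A.card ≤ m ∧
      ∀ s', P (x, s, s') → F s' ∈ A) :
    (univ.filter P).card ≤ m * Fintype.card G ^ 2 := by
  classical
  rw [Finset.card_filter, Fintype.sum_prod_type]
  have h1 : ∀ x ∈ (univ : Finset G), (∑ p : G × G, if P (x, p) then 1 else 0) ≤
      Fintype.card G * m := by
    intro x _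
    rw [Fintype.sum_prod_type]
    have h2 : ∀ s ∈ (univ : Finset G), (∑ s' : G, if P (x, s, s') then 1 else 0) ≤ m := by
      intro s _
      obtain ⟨F, A, hF, hA, hP⟩ := h x s
      rw [← Finset.card_filter]
      exact (cnt1 F hF A (fun s' => P (x, s, s')) hP).trans hA
    refine (Finset.sum_le_card_nsmul _ _ m h2).trans ?_
    simp
  refine (Finset.sum_le_card_nsmul _ _ _ h1).trans ?_
  simp only [Finset.card_univ, smul_eq_mul]
  apply le_of_eq; ring

theorem dbl_inj (hodd : Odd (Fintype.card G)) : Function.Injective (fun x : G => x + x) := by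
  intro x y hxy
  have h : (2 : ℕ) • (x - y) = 0 := by
    rw [two_nsmul]
    have : x + x = y + y := hxy
    calc x - y + (x - y) = (x + x) - (y + y) := by abel
      _ = 0 := by rw [this, sub_self]
  have h2 : (Fintype.card G) • (x - y) = 0 := card_nsmul_eq_zero
  have h3 : addOrderOf (x - y) ∣ 2 := addOrderOf_dvd_of_nsmul_eq_zero h
  have h4 : addOrderOf (x - y) ∣ Fintype.card G := addOrderOf_dvd_of_nsmul_eq_zero h2
  have h5 : addOrderOf (x - y) ∣ Nat.gcd 2 (Fintype.card G) := Nat.dvd_gcd h3 h4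
  have h6 : Nat.gcd 2 (Fintype.card G) = 1 := by
    exact (Nat.coprime_two_left.mpr hodd)
  rw [h6, Nat.dvd_one, AddMonoid.addOrderOf_eq_one_iff] at h5
  exact sub_eq_zero.mp h5

omit [Fintype G] [DecidableEq G] in
theorem cell_inj (i j : Fin 3) (t t' : G)
    (h : cell i t = cell j t') : t = t' := by
  fin_cases i <;> fin_cases j <;> simp only [cell, Prod.mk.injEq] at h
  all_goals first
    | exact h.1
    | exact h.2
    | (obtain ⟨h1, h2⟩ := h
       have h3 := congrArg₂ (fun a b : G => a + b) h1 h2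
       have h4 : -t = -t' := by
         calc -t = -(t + t) + t := by abel
           _ = t' + -(t' + t') := h3
           _ = -t' := by abel
       exact neg_inj.mp h4)
    | (obtain ⟨h1, h2⟩ := h
       have h3 := congrArg₂ (fun a b : G => a + b) h1 h2
       have h4 : -t = -t' := by
         calc -t = t + -(t + t) := by abel
           _ = -(t' + t') + t' := h3
           _ = -t' := by abel
       exact neg_inj.mp h4)

/-- `el` written out -/
theorem el_lost (r₁ c₁ r₂ c₂ z : G) (L : Finset G) (i : Fin 12) :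
    (univ.filter fun v : G × G × G => el r₁ c₁ r₂ c₂ z v i ∈ L).card ≤
      L.card * Fintype.card G ^ 2 := by
  have hneg : ∀ a : G, Function.Injective (fun x : G => a - x) := fun a x y h => by
    simpa using h
  have hadd : ∀ a : G, Function.Injective (fun x : G => x + a) := fun a x y h => by
    simpa using h
  fin_cases i
  · exact cntx _ _ fun s s' => ⟨fun x => x, L, fun _ _ h => h, le_rfl, fun x h => h⟩
  · exact cntx _ _ fun s s' => ⟨fun x => r₁ + c₁ - x, L, hneg _, le_rfl, fun x h => h⟩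
  · exact cntx _ _ fun s s' => ⟨fun x => x + (r₂ + c₂ + z), L, hadd _, le_rfl, fun x h => h⟩
  · exact cntx _ _ fun s s' => ⟨fun x => -z - x, L, hneg _, le_rfl, fun x h => h⟩
  · exact cnts _ _ fun x s' => ⟨fun s => s, L, fun _ _ h => h, le_rfl, fun s h => h⟩
  · exact cnts _ _ fun x s' => ⟨fun s => -r₁ - s, L, hneg _, le_rfl, fun s h => h⟩
  · exact cntt _ _ fun x s => ⟨fun s' => s', L, fun _ _ h => h, le_rfl, fun s' h => h⟩
  · exact cntt _ _ fun x s => ⟨fun s' => -r₂ - s', L, hneg _, le_rfl, fun s' h => h⟩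
  · exact cnts _ _ fun x s' => ⟨fun s => -x - s, L, hneg _, le_rfl, fun s h => h⟩
  · refine cnts _ _ fun x s' => ⟨fun s => s + (x - c₁), L, hadd _, le_rfl, fun s h => ?_⟩
    have : s + (x - c₁) = x + s - c₁ := by abel
    show s + (x - c₁) ∈ L
    rw [this]; exact h
  · exact cntt _ _ fun x s => ⟨fun s' => -(x + (r₂ + c₂ + z)) - s', L, hneg _, le_rfl,
      fun s' h => h⟩
  · refine cntt _ _ fun x s => ⟨fun s' => s' + (x + (r₂ + c₂ + z) - c₂), L, hadd _, le_rfl,
      fun s' h => ?_⟩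
    have : s' + (x + (r₂ + c₂ + z) - c₂) = x + (r₂ + c₂ + z) + s' - c₂ := by abel
    show s' + (x + (r₂ + c₂ + z) - c₂) ∈ L
    rw [this]; exact h

/-- the pairs of indices of the same type which can be equal -/
def PP : Finset (Fin 12 × Fin 12) :=
  {(0, 1), (0, 3), (1, 2), (2, 3), (4, 5), (4, 6), (4, 7), (5, 6), (5, 7), (6, 7),
    (8, 9), (8, 10), (8, 11), (9, 10), (9, 11), (10, 11)}

theorem el_pair (hodd : Odd (Fintype.card G)) (r₁ c₁ r₂ c₂ z : G) (p : Fin 12 × Fin 12)
    (hp : p ∈ PP) :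
    (univ.filter fun v : G × G × G =>
      el r₁ c₁ r₂ c₂ z v p.1 = el r₁ c₁ r₂ c₂ z v p.2).card ≤ 1 * Fintype.card G ^ 2 := by
  have hd := dbl_inj hodd
  have hi : Function.Injective (fun x : G => x) := fun _ _ h => h
  have hc : ∀ a : G, ({a} : Finset G).card ≤ 1 := fun a => by simp
  have key : ∀ a b c : G, ∀ e : G, (a - b) = (c - e) → a = b → c = e := by
    intro a b c e h1 h2
    rw [h2, sub_self] at h1
    exact (sub_eq_zero.mp h1.symm)
  simp only [PP, Finset.mem_insert, Finset.mem_singleton] at hp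
  rcases hp with rfl | rfl | rfl | rfl | rfl | rfl | rfl | rfl | rfl | rfl | rfl | rfl | rfl |
    rfl | rfl | rfl
  · refine cntx _ _ fun s s' => ⟨_, {r₁ + c₁}, hd, hc _, fun x h => Finset.mem_singleton.mpr ?_⟩
    exact key _ _ _ _ (by abel) (show x = r₁ + c₁ - x from h)
  · refine cntx _ _ fun s s' => ⟨_, {-z}, hd, hc _, fun x h => Finset.mem_singleton.mpr ?_⟩
    exact key _ _ _ _ (by abel) (show x = -z - x from h)
  · refine cntx _ _ fun s s' => ⟨_, {r₁ + c₁ - (r₂ + c₂ + z)}, hd, hc _,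
      fun x h => Finset.mem_singleton.mpr ?_⟩
    exact key _ _ _ _ (by abel) (show x + (r₂ + c₂ + z) = r₁ + c₁ - x from h.symm)
  · refine cntx _ _ fun s s' => ⟨_, {-z - (r₂ + c₂ + z)}, hd, hc _,
      fun x h => Finset.mem_singleton.mpr ?_⟩
    exact key _ _ _ _ (by abel) (show x + (r₂ + c₂ + z) = -z - x from h)
  · refine cnts _ _ fun x s' => ⟨_, {-r₁}, hd, hc _, fun s h => Finset.mem_singleton.mpr ?_⟩
    exact key _ _ _ _ (by abel) (show s = -r₁ - s from h)
  · refine cntt _ _ fun x s => ⟨_, {s}, hi, hc _, fun s' h => Finset.mem_singleton.mpr ?_⟩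
    exact key _ _ _ _ (by abel) (show s' = s from h.symm)
  · refine cntt _ _ fun x s => ⟨_, {-r₂ - s}, hi, hc _, fun s' h => Finset.mem_singleton.mpr ?_⟩
    exact key _ _ _ _ (by abel) (show s = -r₂ - s' from h)
  · refine cntt _ _ fun x s => ⟨_, {-r₁ - s}, hi, hc _, fun s' h => Finset.mem_singleton.mpr ?_⟩
    exact key _ _ _ _ (by abel) (show s' = -r₁ - s from h.symm)
  · refine cntt _ _ fun x s => ⟨_, {r₁ + s - r₂}, hi, hc _, fun s' h => Finset.mem_singleton.mpr ?_⟩
    exact key _ _ _ _ (by abel) (show -r₁ - s = -r₂ - s' from h)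
  · refine cntt _ _ fun x s => ⟨_, {-r₂}, hd, hc _, fun s' h => Finset.mem_singleton.mpr ?_⟩
    exact key _ _ _ _ (by abel) (show s' = -r₂ - s' from h)
  · refine cnts _ _ fun x s' => ⟨_, {c₁ - x - x}, hd, hc _, fun s h => Finset.mem_singleton.mpr ?_⟩
    exact key _ _ _ _ (by abel) (show x + s - c₁ = -x - s from h.symm)
  · refine cntt _ _ fun x s => ⟨_, {s - (r₂ + c₂ + z)}, hi, hc _,
      fun s' h => Finset.mem_singleton.mpr ?_⟩
    exact key _ _ _ _ (by abel) (show -x - s = -(x + (r₂ + c₂ + z)) - s' from h)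
  · refine cntt _ _ fun x s => ⟨_, {-x - s - (x + (r₂ + c₂ + z)) + c₂}, hi, hc _,
      fun s' h => Finset.mem_singleton.mpr ?_⟩
    exact key _ _ _ _ (by abel) (show x + (r₂ + c₂ + z) + s' - c₂ = -x - s from h.symm)
  · refine cntt _ _ fun x s => ⟨_, {-(x + s - c₁) - (x + (r₂ + c₂ + z))}, hi, hc _,
      fun s' h => Finset.mem_singleton.mpr ?_⟩
    exact key _ _ _ _ (by abel) (show x + s - c₁ = -(x + (r₂ + c₂ + z)) - s' from h)
  · refine cntt _ _ fun x s => ⟨_, {x + s - c₁ - (x + (r₂ + c₂ + z)) + c₂}, hi, hc _,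
      fun s' h => Finset.mem_singleton.mpr ?_⟩
    exact key _ _ _ _ (by abel) (show x + (r₂ + c₂ + z) + s' - c₂ = x + s - c₁ from h.symm)
  · refine cntt _ _ fun x s => ⟨_, {c₂ - (x + (r₂ + c₂ + z)) - (x + (r₂ + c₂ + z))}, hd, hc _,
      fun s' h => Finset.mem_singleton.mpr ?_⟩
    exact key _ _ _ _ (by abel)
      (show x + (r₂ + c₂ + z) + s' - c₂ = -(x + (r₂ + c₂ + z)) - s' from h.symm)

/-- the thirteen new cells -/
def nc (r₁ c₁ r₂ c₂ z : G) (v : G × G × G) : Fin 13 → G × G :=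
  ![(-v.1 - v.2.1, v.1), (-(v.2.1 + v.2.1), (v.1 + v.2.1) + (v.1 + v.2.1)),
    (r₁ + c₁ - v.1, -r₁ - v.2.1),
    ((r₁ + v.2.1) + (r₁ + v.2.1), -((v.1 + v.2.1 - c₁) + (v.1 + v.2.1 - c₁))),
    (r₁, v.2.1), (v.1 + v.2.1 - c₁, c₁),
    (-(v.1 + (r₂ + c₂ + z)) - v.2.2, (v.1 + (r₂ + c₂ + z))),
    (-(v.2.2 + v.2.2), ((v.1 + (r₂ + c₂ + z)) + v.2.2) + ((v.1 + (r₂ + c₂ + z)) + v.2.2)),
    (r₂ + c₂ - (v.1 + (r₂ + c₂ + z)), -r₂ - v.2.2),
    ((r₂ + v.2.2) + (r₂ + v.2.2), -(((v.1 + (r₂ + c₂ + z)) + v.2.2 - c₂) +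
      ((v.1 + (r₂ + c₂ + z)) + v.2.2 - c₂))),
    (r₂, v.2.2), ((v.1 + (r₂ + c₂ + z)) + v.2.2 - c₂, c₂), (v.1, -z - v.1)]

theorem nc_bad (hodd : Odd (Fintype.card G)) (B : Finset (G × G)) (D : ℕ) (hB : Sparse B D)
    (r₁ c₁ r₂ c₂ z : G) (i : Fin 13) :
    (univ.filter fun v : G × G × G => nc r₁ c₁ r₂ c₂ z v i ∈ B).card ≤
      D * Fintype.card G ^ 2 := by
  have hd := dbl_inj hodd
  have hneg : ∀ a : G, Function.Injective (fun x : G => a - x) := fun a x y h => by
    simpa using h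
  have hadd : ∀ a : G, Function.Injective (fun x : G => x + a) := fun a x y h => by
    simpa using h
  have hda : ∀ a : G, Function.Injective (fun x : G => (x + a) + (x + a)) := fun a x y h => by
    have h1 := hd h
    simpa using h1
  have hdn : ∀ a : G, Function.Injective (fun x : G => -((x + a) + (x + a))) := fun a x y h => by
    have h1 := hda a (neg_inj.mp h)
    exact h1
  fin_cases i
  · refine cnts _ _ fun x s' => ⟨fun s => -x - s, univ.filter (fun y => (y, x) ∈ B), hneg _,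
      hB.col x, fun s h => ?_⟩
    simp only [Finset.mem_filter, Finset.mem_univ, true_and]
    exact h
  · refine cntx _ _ fun s s' => ⟨fun x => (x + s) + (x + s),
      univ.filter (fun y => (-(s + s), y) ∈ B), hda _, hB.row _, fun x h => ?_⟩
    simp only [Finset.mem_filter, Finset.mem_univ, true_and]
    exact h
  · refine cnts _ _ fun x s' => ⟨fun s => -r₁ - s,
      univ.filter (fun y => (r₁ + c₁ - x, y) ∈ B), hneg _, hB.row _, fun s h => ?_⟩
    simp only [Finset.mem_filter, Finset.mem_univ, true_and]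
    exact h
  · refine cntx _ _ fun s s' => ⟨fun x => -((x + (s - c₁)) + (x + (s - c₁))),
      univ.filter (fun y => ((r₁ + s) + (r₁ + s), y) ∈ B), hdn _, hB.row _, fun x h => ?_⟩
    have e : -((x + (s - c₁)) + (x + (s - c₁))) = -((x + s - c₁) + (x + s - c₁)) := by abel
    simp only [Finset.mem_filter, Finset.mem_univ, true_and]
    rw [e]; exact h
  · refine cnts _ _ fun x s' => ⟨fun s => s,
      univ.filter (fun y => (r₁, y) ∈ B), fun _ _ h => h, hB.row _, fun s h => ?_⟩
    simp only [Finset.mem_filter, Finset.mem_univ, true_and]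
    exact h
  · refine cntx _ _ fun s s' => ⟨fun x => x + (s - c₁),
      univ.filter (fun y => (y, c₁) ∈ B), hadd _, hB.col _, fun x h => ?_⟩
    have e : x + (s - c₁) = x + s - c₁ := by abel
    simp only [Finset.mem_filter, Finset.mem_univ, true_and]
    rw [e]; exact h
  · refine cntt _ _ fun x s => ⟨fun s' => -(x + (r₂ + c₂ + z)) - s',
      univ.filter (fun y => (y, x + (r₂ + c₂ + z)) ∈ B), hneg _,
      hB.col _, fun s' h => ?_⟩
    simp only [Finset.mem_filter, Finset.mem_univ, true_and]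
    exact h
  · refine cntx _ _ fun s s' => ⟨fun x => (x + ((r₂ + c₂ + z) + s')) + (x + ((r₂ + c₂ + z) + s')),
      univ.filter (fun y => (-(s' + s'), y) ∈ B), hda _, hB.row _, fun x h => ?_⟩
    have e : (x + ((r₂ + c₂ + z) + s')) + (x + ((r₂ + c₂ + z) + s')) =
      ((x + (r₂ + c₂ + z)) + s') + ((x + (r₂ + c₂ + z)) + s') := by abel
    simp only [Finset.mem_filter, Finset.mem_univ, true_and]
    rw [e]; exact h
  · refine cntt _ _ fun x s => ⟨fun s' => -r₂ - s',
      univ.filter (fun y => (r₂ + c₂ - (x + (r₂ + c₂ + z)), y) ∈ B), hneg _, hB.row _,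
      fun s' h => ?_⟩
    simp only [Finset.mem_filter, Finset.mem_univ, true_and]
    exact h
  · refine cntx _ _ fun s s' => ⟨fun x => -((x + ((r₂ + c₂ + z) + s' - c₂)) +
        (x + ((r₂ + c₂ + z) + s' - c₂))),
      univ.filter (fun y => ((r₂ + s') + (r₂ + s'), y) ∈ B), hdn _, hB.row _, fun x h => ?_⟩
    have e : -((x + ((r₂ + c₂ + z) + s' - c₂)) + (x + ((r₂ + c₂ + z) + s' - c₂))) =
      -(((x + (r₂ + c₂ + z)) + s' - c₂) + ((x + (r₂ + c₂ + z)) + s' - c₂)) := by abel
    simp only [Finset.mem_filter, Finset.mem_univ, true_and]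
    rw [e]; exact h
  · refine cntt _ _ fun x s => ⟨fun s' => s',
      univ.filter (fun y => (r₂, y) ∈ B), fun _ _ h => h, hB.row _, fun s' h => ?_⟩
    simp only [Finset.mem_filter, Finset.mem_univ, true_and]
    exact h
  · refine cntx _ _ fun s s' => ⟨fun x => x + ((r₂ + c₂ + z) + s' - c₂),
      univ.filter (fun y => (y, c₂) ∈ B), hadd _, hB.col _, fun x h => ?_⟩
    have e : x + ((r₂ + c₂ + z) + s' - c₂) = (x + (r₂ + c₂ + z)) + s' - c₂ := by abel
    simp only [Finset.mem_filter, Finset.mem_univ, true_and]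
    rw [e]; exact h
  · refine cntx _ _ fun s s' => ⟨fun x => x,
      univ.filter (fun y => (y, -z - y) ∈ B), fun _ _ h => h, hB.sym _, fun x h => ?_⟩
    simp only [Finset.mem_filter, Finset.mem_univ, true_and]
    exact h

/-- a vector avoiding all bad events -/
theorem exists_good (κ : G → Option (Fin 3)) (K : ℕ) (hκ : Rich κ K)
    (hodd : Odd (Fintype.card G)) (B : Finset (G × G)) (D U : ℕ) (hB : Sparse B D)
    (L : Finset G) (hL : L.card ≤ U)
    (hn : 4 * 3 ^ 12 * (12 * U + 16 + 13 * D) < Fintype.card G) (r₁ c₁ r₂ c₂ z : G) :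
    ∃ v : G × G × G, (∀ i, κ (el r₁ c₁ r₂ c₂ z v i) = some (ty i)) ∧
      (∀ i, el r₁ c₁ r₂ c₂ z v i ∉ L) ∧
      (∀ p ∈ PP, el r₁ c₁ r₂ c₂ z v p.1 ≠ el r₁ c₁ r₂ c₂ z v p.2) ∧
      (∀ i, nc r₁ c₁ r₂ c₂ z v i ∉ B) := by
  by_contra hcon
  push Not at hcon
  have hsub : (univ.filter fun v : G × G × G => ∀ i, κ (el r₁ c₁ r₂ c₂ z v i) = some (ty i)) ⊆
      ((univ : Finset (Fin 12)).biUnion fun i =>
        univ.filter fun v : G × G × G => el r₁ c₁ r₂ c₂ z v i ∈ L) ∪
      ((PP.biUnion fun p => univ.filter fun v : G × G × G =>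
        el r₁ c₁ r₂ c₂ z v p.1 = el r₁ c₁ r₂ c₂ z v p.2) ∪
      ((univ : Finset (Fin 13)).biUnion fun i =>
        univ.filter fun v : G × G × G => nc r₁ c₁ r₂ c₂ z v i ∈ B)) := by
    intro v hv
    have hv' : ∀ i, κ (el r₁ c₁ r₂ c₂ z v i) = some (ty i) := by simpa using hv
    by_cases h1 : ∀ i, el r₁ c₁ r₂ c₂ z v i ∉ L
    · by_cases h2 : ∀ p ∈ PP, el r₁ c₁ r₂ c₂ z v p.1 ≠ el r₁ c₁ r₂ c₂ z v p.2
      · obtain ⟨i, hi⟩ := hcon v hv' h1 h2
        refine Finset.mem_union_right _ (Finset.mem_union_right _ ?_)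
        exact Finset.mem_biUnion.mpr ⟨i, Finset.mem_univ _, by simpa using hi⟩
      · push Not at h2
        obtain ⟨p, hp, hp2⟩ := h2
        refine Finset.mem_union_right _ (Finset.mem_union_left _ ?_)
        exact Finset.mem_biUnion.mpr ⟨p, hp, by simpa using hp2⟩
    · push Not at h1
      obtain ⟨i, hi⟩ := h1
      refine Finset.mem_union_left _ ?_
      exact Finset.mem_biUnion.mpr ⟨i, Finset.mem_univ _, by simpa using hi⟩
  have h1 := Finset.card_le_card hsub
  have h2 := h1.trans (Finset.card_union_le _ _)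
  have h3 := h2.trans (Nat.add_le_add_left (Finset.card_union_le _ _) _)
  have b1 : ((univ : Finset (Fin 12)).biUnion fun i =>
      univ.filter fun v : G × G × G => el r₁ c₁ r₂ c₂ z v i ∈ L).card ≤
      12 * (U * Fintype.card G ^ 2) := by
    refine (Finset.card_biUnion_le_card_mul _ _ (U * Fintype.card G ^ 2) fun i _ =>
      (el_lost r₁ c₁ r₂ c₂ z L i).trans (Nat.mul_le_mul_right _ hL)).trans ?_
    simp
  have b2 : (PP.biUnion fun p => univ.filter fun v : G × G × G =>
        el r₁ c₁ r₂ c₂ z v p.1 = el r₁ c₁ r₂ c₂ z v p.2).card ≤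
      16 * (1 * Fintype.card G ^ 2) := by
    refine (Finset.card_biUnion_le_card_mul _ _ (1 * Fintype.card G ^ 2) fun p hp =>
      el_pair hodd r₁ c₁ r₂ c₂ z p hp).trans ?_
    have : PP.card = 16 := by decide
    rw [this]
  have b3 : ((univ : Finset (Fin 13)).biUnion fun i =>
        univ.filter fun v : G × G × G => nc r₁ c₁ r₂ c₂ z v i ∈ B).card ≤
      13 * (D * Fintype.card G ^ 2) := by
    refine (Finset.card_biUnion_le_card_mul _ _ (D * Fintype.card G ^ 2) fun i _ =>
      nc_bad hodd B D hB r₁ c₁ r₂ c₂ z i).trans ?_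
    simp
  have hm := hκ.many r₁ c₁ r₂ c₂ z
  have hpos : 0 < Fintype.card G := lt_of_le_of_lt (Nat.zero_le _) hn
  have h4 : (univ.filter fun v : G × G × G =>
      ∀ i, κ (el r₁ c₁ r₂ c₂ z v i) = some (ty i)).card ≤
      (12 * U + 16 + 13 * D) * Fintype.card G ^ 2 := by
    refine h3.trans ((Nat.add_le_add b1 (Nat.add_le_add b2 b3)).trans (le_of_eq ?_))
    ring
  have h5 : Fintype.card G ^ 3 ≤ 4 * 3 ^ 12 * ((12 * U + 16 + 13 * D) * Fintype.card G ^ 2) :=
    hm.trans (Nat.mul_le_mul_left _ h4)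
  have h6 : 4 * 3 ^ 12 * ((12 * U + 16 + 13 * D) * Fintype.card G ^ 2) <
      Fintype.card G * Fintype.card G ^ 2 := by
    rw [← mul_assoc]
    exact Nat.mul_lt_mul_of_pos_right hn (by positivity)
  have h7 : Fintype.card G * Fintype.card G ^ 2 = Fintype.card G ^ 3 := by ring
  omega


omit [Fintype G] in
/-- everything needed about one move -/
theorem oneMove (hm : S_move) (T : Finset (G × G)) (r c x s : G) (hT : PT T)
    (hr : r ∉ T.image fun p => p.1) (hc : c ∉ T.image fun p => p.2)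
    (ho : oldc r c x s ⊆ T) (hN : [x, r + c - x, s, -r - s, -x - s, x + s - c].Nodup) :
    PT ((T \ oldc r c x s) ∪ newc r c x s) ∧
    ((T \ oldc r c x s) ∪ newc r c x s).card = T.card ∧
    ((T \ oldc r c x s) ∪ newc r c x s).image (fun p => p.1) =
      insert r ((T.image fun p => p.1).erase x) ∧
    ((T \ oldc r c x s) ∪ newc r c x s).image (fun p => p.2) =
      insert c ((T.image fun p => p.2).erase (r + c - x)) ∧
    ((T \ oldc r c x s) ∪ newc r c x s).image (fun p => p.1 + p.2) =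
      T.image (fun p => p.1 + p.2) := by
  refine hm G T r c x s hT ?_ ?_ ho hN
  · intro p hp h
    exact hr (Finset.mem_image.mpr ⟨p, hp, h⟩)
  · intro p hp h
    exact hc (Finset.mem_image.mpr ⟨p, hp, h⟩)

omit [Fintype G] in
theorem PT_insert (T : Finset (G × G)) (a : G × G) (hT : PT T)
    (h1 : a.1 ∉ T.image fun p => p.1) (h2 : a.2 ∉ T.image fun p => p.2)
    (h3 : a.1 + a.2 ∉ T.image fun p => p.1 + p.2) : PT (insert a T) := by
  have gen : ∀ f : G × G → G, Set.InjOn f (T : Set (G × G)) → f a ∉ T.image f →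
      Set.InjOn f ((insert a T : Finset (G × G)) : Set (G × G)) := by
    intro f hf ha
    rw [Finset.coe_insert]
    have haT : a ∉ (T : Set (G × G)) := fun h => ha (Finset.mem_image_of_mem f h)
    rw [Set.injOn_insert haT]
    refine ⟨hf, ?_⟩
    intro h
    obtain ⟨b, hb, hb2⟩ := h
    exact ha (Finset.mem_image.mpr ⟨b, hb, hb2⟩)
  exact ⟨gen _ hT.row h1, gen _ hT.col h2, gen (fun p => p.1 + p.2) hT.sym h3⟩

theorem ty_pair : ∀ i j : Fin 12, i < j → ty i = ty j → (i, j) ∈ PP ∨ (i, j) = (0, 2) ∨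
    (i, j) = (1, 3) := by decide

theorem el_inj (κ : G → Option (Fin 3)) (r₁ c₁ r₂ c₂ z : G) (v : G × G × G)
    (h1 : r₁ + c₁ ≠ -z) (h2 : r₂ + c₂ ≠ -z)
    (hk : ∀ i, κ (el r₁ c₁ r₂ c₂ z v i) = some (ty i))
    (hp : ∀ p ∈ PP, el r₁ c₁ r₂ c₂ z v p.1 ≠ el r₁ c₁ r₂ c₂ z v p.2) :
    Function.Injective (el r₁ c₁ r₂ c₂ z v) := by
  have hlt : ∀ i j : Fin 12, i < j → el r₁ c₁ r₂ c₂ z v i ≠ el r₁ c₁ r₂ c₂ z v j := by
    intro i j hij he
    have ht : ty i = ty j := by
      have := hk i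
      rw [he, hk j] at this
      exact (Option.some.inj this).symm
    rcases ty_pair i j hij ht with h | h | h
    · exact hp (i, j) h he
    · rw [Prod.mk.injEq] at h
      rw [h.1, h.2] at he
      have he' : v.1 = v.1 + (r₂ + c₂ + z) := he
      have h3 : r₂ + c₂ + z = 0 := by
        have := he'.symm
        simpa using this
      exact h2 (eq_neg_of_add_eq_zero_left h3)
    · rw [Prod.mk.injEq] at h
      rw [h.1, h.2] at he
      have he' : r₁ + c₁ - v.1 = -z - v.1 := he
      exact h1 (by simpa using he')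
  intro i j he
  rcases lt_trichotomy i j with h | h | h
  · exact absurd he (hlt i j h)
  · exact h
  · exact absurd he.symm (hlt j i h)

theorem step2 (hm : S_move) : S_step2 := by
  intro G _ _ _ κ K hκ hodd R C S B T D U hB hT hlost hn r₁ c₁ r₂ c₂ s₀ hr₁ hc₁ hr₂ hc₂ hs₀
    hrr hcc ur₁ uc₁ ur₂ uc₂ us₀ hne1 hne2
  obtain ⟨v, hk, hL, hP, hN⟩ := exists_good κ K hκ hodd B D U hB (lost κ T) hlost hn
    r₁ c₁ r₂ c₂ (-s₀)
  have hinj := el_inj κ r₁ c₁ r₂ c₂ (-s₀) v (by simpa using hne1) (by simpa using hne2) hk hP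
  obtain ⟨x, s, s'⟩ := v
  set x' : G := x + (r₂ + c₂ + -s₀) with hx'
  have e3 : r₂ + c₂ - x' = s₀ - x := by rw [hx']; abel
  have e3' : - -s₀ - x = s₀ - x := by rw [neg_neg]
  -- the twelve cells lie in T
  have hin : ∀ i, cell (ty i) (el r₁ c₁ r₂ c₂ (-s₀) (x, s, s') i) ∈ T := by
    intro i
    by_contra hcon
    apply hL i
    simp only [lost, Finset.mem_filter, Finset.mem_univ, true_and]
    exact ⟨ty i, hk i, hcon⟩
  have i0 : cell 0 x ∈ T := hin 0
  have i1 : cell 0 (r₁ + c₁ - x) ∈ T := hin 1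
  have i2 : cell 0 x' ∈ T := hin 2
  have i3 : cell 0 (s₀ - x) ∈ T := by
    have := hin 3
    rw [← e3']; exact this
  have i4 : cell 1 s ∈ T := hin 4
  have i5 : cell 1 (-r₁ - s) ∈ T := hin 5
  have i6 : cell 1 s' ∈ T := hin 6
  have i7 : cell 1 (-r₂ - s') ∈ T := hin 7
  have i8 : cell 2 (-x - s) ∈ T := hin 8
  have i9 : cell 2 (x + s - c₁) ∈ T := hin 9
  have i10 : cell 2 (-x' - s') ∈ T := hin 10
  have i11 : cell 2 (x' + s' - c₂) ∈ T := hin 11
  have N1 : [x, r₁ + c₁ - x, s, -r₁ - s, -x - s, x + s - c₁].Nodup := by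
    have h := List.Nodup.map hinj (show ([0, 1, 4, 5, 8, 9] : List (Fin 12)).Nodup by decide)
    exact h
  have N2 : [x', r₂ + c₂ - x', s', -r₂ - s', -x' - s', x' + s' - c₂].Nodup := by
    have h := List.Nodup.map hinj (show ([2, 3, 6, 7, 10, 11] : List (Fin 12)).Nodup by decide)
    rw [e3, ← e3']
    exact h
  have R1 : r₁ ∉ T.image fun p => p.1 := by
    intro h
    obtain ⟨p, hp, hp2⟩ := Finset.mem_image.mp h
    exact ur₁ p hp hp2
  have C1 : c₁ ∉ T.image fun p => p.2 := by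
    intro h
    obtain ⟨p, hp, hp2⟩ := Finset.mem_image.mp h
    exact uc₁ p hp hp2
  have R2 : r₂ ∉ T.image fun p => p.1 := by
    intro h
    obtain ⟨p, hp, hp2⟩ := Finset.mem_image.mp h
    exact ur₂ p hp hp2
  have C2 : c₂ ∉ T.image fun p => p.2 := by
    intro h
    obtain ⟨p, hp, hp2⟩ := Finset.mem_image.mp h
    exact uc₂ p hp hp2
  have S0 : s₀ ∉ T.image fun p => p.1 + p.2 := by
    intro h
    obtain ⟨p, hp, hp2⟩ := Finset.mem_image.mp h
    exact us₀ p hp hp2
  have O1 : oldc r₁ c₁ x s ⊆ T := by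
    intro p hp
    simp only [oldc, Finset.mem_insert, Finset.mem_singleton] at hp
    rcases hp with rfl | rfl | rfl | rfl | rfl | rfl <;> assumption
  obtain ⟨P1, K1, A1, B1, Y1⟩ := oneMove hm T r₁ c₁ x s hT.pt R1 C1 O1 N1
  set T1 := (T \ oldc r₁ c₁ x s) ∪ newc r₁ c₁ x s with hT1
  -- the old cells of the second move are not touched by the first
  have keep : ∀ i : Fin 12, i ∈ ([2, 3, 6, 7, 10, 11] : List (Fin 12)) →
      cell (ty i) (el r₁ c₁ r₂ c₂ (-s₀) (x, s, s') i) ∈ T1 := by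
    intro i hi
    refine Finset.mem_union_left _ (Finset.mem_sdiff.mpr ⟨hin i, ?_⟩)
    intro hp
    have hgen : ∃ j : Fin 12, j ∈ ([0, 1, 4, 5, 8, 9] : List (Fin 12)) ∧
        cell (ty i) (el r₁ c₁ r₂ c₂ (-s₀) (x, s, s') i) =
          cell (ty j) (el r₁ c₁ r₂ c₂ (-s₀) (x, s, s') j) := by
      simp only [oldc, Finset.mem_insert, Finset.mem_singleton] at hp
      rcases hp with h | h | h | h | h | h
      · exact ⟨0, by decide, h⟩
      · exact ⟨1, by decide, h⟩
      · exact ⟨4, by decide, h⟩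
      · exact ⟨5, by decide, h⟩
      · exact ⟨8, by decide, h⟩
      · exact ⟨9, by decide, h⟩
    obtain ⟨j, hj, hj2⟩ := hgen
    have hij : i = j := hinj (cell_inj _ _ _ _ hj2)
    subst hij
    exact (by decide : ∀ i : Fin 12, i ∈ ([2, 3, 6, 7, 10, 11] : List (Fin 12)) →
      i ∈ ([0, 1, 4, 5, 8, 9] : List (Fin 12)) → False) i hi hj
  have k2 : cell 0 x' ∈ T1 := keep 2 (by decide)
  have k3 : cell 0 (s₀ - x) ∈ T1 := by
    have := keep 3 (by decide)
    rw [← e3']; exact this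
  have k6 : cell 1 s' ∈ T1 := keep 6 (by decide)
  have k7 : cell 1 (-r₂ - s') ∈ T1 := keep 7 (by decide)
  have k10 : cell 2 (-x' - s') ∈ T1 := keep 10 (by decide)
  have k11 : cell 2 (x' + s' - c₂) ∈ T1 := keep 11 (by decide)
  have O2 : oldc r₂ c₂ x' s' ⊆ T1 := by
    intro p hp
    simp only [oldc, Finset.mem_insert, Finset.mem_singleton, e3] at hp
    rcases hp with rfl | rfl | rfl | rfl | rfl | rfl <;> assumption
  have R2' : r₂ ∉ T1.image fun p => p.1 := by
    rw [A1, Finset.mem_insert, Finset.mem_erase]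
    rintro (h | h)
    · exact hrr h.symm
    · exact R2 h.2
  have C2' : c₂ ∉ T1.image fun p => p.2 := by
    rw [B1, Finset.mem_insert, Finset.mem_erase]
    rintro (h | h)
    · exact hcc h.symm
    · exact C2 h.2
  obtain ⟨P2, K2, A2, B2, Y2⟩ := oneMove hm T1 r₂ c₂ x' s' P1 R2' C2' O2 N2
  set T2 := (T1 \ oldc r₂ c₂ x' s') ∪ newc r₂ c₂ x' s' with hT2
  -- the rows x and the column s₀ - x
  have xT : x ∈ T.image fun p => p.1 := Finset.mem_image.mpr ⟨cell 0 x, i0, rfl⟩
  have yT : s₀ - x ∈ T.image fun p => p.2 := Finset.mem_image.mpr ⟨cell 0 (s₀ - x), i3, rfl⟩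
  have xT2 : x ∉ T2.image fun p => p.1 := by
    rw [A2, Finset.mem_insert, Finset.mem_erase, A1, Finset.mem_insert, Finset.mem_erase]
    rintro (h | ⟨-, h | h⟩)
    · exact R2 (h ▸ xT)
    · exact R1 (h ▸ xT)
    · exact h.1 rfl
  have yT2 : s₀ - x ∉ T2.image fun p => p.2 := by
    rw [B2, Finset.mem_insert, Finset.mem_erase, e3]
    rintro (h | h)
    · exact C2 (h ▸ yT)
    · exact h.1 rfl
  have sT2 : x + (s₀ - x) ∉ T2.image fun p => p.1 + p.2 := by
    rw [Y2, Y1]
    have : x + (s₀ - x) = s₀ := by abel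
    rw [this]; exact S0
  have hnew : (x, s₀ - x) ∉ T2 := fun h => xT2 (Finset.mem_image.mpr ⟨_, h, rfl⟩)
  have rowsR : T.image (fun p => p.1) ⊆ R := by
    intro a ha
    obtain ⟨p, hp, rfl⟩ := Finset.mem_image.mp ha
    exact hT.row p hp
  have colsC : T.image (fun p => p.2) ⊆ C := by
    intro a ha
    obtain ⟨p, hp, rfl⟩ := Finset.mem_image.mp ha
    exact hT.col p hp
  have symsS : T.image (fun p => p.1 + p.2) ⊆ S := by
    intro a ha
    obtain ⟨p, hp, rfl⟩ := Finset.mem_image.mp ha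
    exact hT.sym p hp
  refine ⟨insert (x, s₀ - x) T2, ⟨PT_insert T2 _ P2 xT2 yT2 sT2, ?_, ?_, ?_, ?_⟩, ?_, ?_⟩
  · intro p hp
    rcases Finset.mem_insert.mp hp with rfl | hp
    · exact rowsR xT
    · have h : p.1 ∈ T2.image fun p => p.1 := Finset.mem_image.mpr ⟨p, hp, rfl⟩
      rw [A2, Finset.mem_insert, Finset.mem_erase, A1, Finset.mem_insert, Finset.mem_erase] at h
      rcases h with h | ⟨-, h | h⟩
      · rw [h]; exact hr₂
      · rw [h]; exact hr₁
      · exact rowsR h.2
  · intro p hp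
    rcases Finset.mem_insert.mp hp with rfl | hp
    · exact colsC yT
    · have h : p.2 ∈ T2.image fun p => p.2 := Finset.mem_image.mpr ⟨p, hp, rfl⟩
      rw [B2, Finset.mem_insert, Finset.mem_erase, B1, Finset.mem_insert, Finset.mem_erase] at h
      rcases h with h | ⟨-, h | h⟩
      · rw [h]; exact hc₂
      · rw [h]; exact hc₁
      · exact colsC h.2
  · intro p hp
    rcases Finset.mem_insert.mp hp with rfl | hp
    · have : x + (s₀ - x) = s₀ := by abel
      show x + (s₀ - x) ∈ S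
      rw [this]; exact hs₀
    · have h : p.1 + p.2 ∈ T2.image fun p => p.1 + p.2 := Finset.mem_image.mpr ⟨p, hp, rfl⟩
      rw [Y2, Y1] at h
      exact symsS h
  · intro p hp
    have n0 : (-x - s, x) ∉ B := hN 0
    have n1 : (-(s + s), (x + s) + (x + s)) ∉ B := hN 1
    have n2 : (r₁ + c₁ - x, -r₁ - s) ∉ B := hN 2
    have n3 : ((r₁ + s) + (r₁ + s), -((x + s - c₁) + (x + s - c₁))) ∉ B := hN 3
    have n4 : (r₁, s) ∉ B := hN 4
    have n5 : (x + s - c₁, c₁) ∉ B := hN 5
    have n6 : (-x' - s', x') ∉ B := hN 6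
    have n7 : (-(s' + s'), (x' + s') + (x' + s')) ∉ B := hN 7
    have n8 : (r₂ + c₂ - x', -r₂ - s') ∉ B := hN 8
    have n9 : ((r₂ + s') + (r₂ + s'), -((x' + s' - c₂) + (x' + s' - c₂))) ∉ B := hN 9
    have n10 : (r₂, s') ∉ B := hN 10
    have n11 : (x' + s' - c₂, c₂) ∉ B := hN 11
    have n12 : (x, s₀ - x) ∉ B := by
      have := hN 12
      rw [← e3']; exact this
    rcases Finset.mem_insert.mp hp with rfl | hp
    · exact n12
    · rw [hT2] at hp
      rcases Finset.mem_union.mp hp with hp | hp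
      · have hp1 := (Finset.mem_sdiff.mp hp).1
        rw [hT1] at hp1
        rcases Finset.mem_union.mp hp1 with hp1 | hp1
        · exact hT.out p (Finset.mem_sdiff.mp hp1).1
        · simp only [newc, Finset.mem_insert, Finset.mem_singleton] at hp1
          rcases hp1 with rfl | rfl | rfl | rfl | rfl | rfl <;> assumption
      · simp only [newc, Finset.mem_insert, Finset.mem_singleton] at hp
        rcases hp with rfl | rfl | rfl | rfl | rfl | rfl <;> assumption
  · rw [Finset.card_insert_of_notMem hnew, K2, K1]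
  · have hsub : lost κ (insert (x, s₀ - x) T2) ⊆
        lost κ T ∪ (univ : Finset (Fin 12)).image (el r₁ c₁ r₂ c₂ (-s₀) (x, s, s')) := by
      intro t ht
      simp only [lost, Finset.mem_filter, Finset.mem_univ, true_and] at ht
      obtain ⟨i, hi, hit⟩ := ht
      by_cases h : cell i t ∈ T
      · refine Finset.mem_union_right _ ?_
        have hn2 : cell i t ∉ T2 := fun h => hit (Finset.mem_insert_of_mem h)
        have hex : ∃ j k, cell i t = cell k (el r₁ c₁ r₂ c₂ (-s₀) (x, s, s') j) := by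
          by_cases h1 : cell i t ∈ T1
          · have : cell i t ∈ oldc r₂ c₂ x' s' := by
              by_contra h2
              exact hn2 (Finset.mem_union_left _ (Finset.mem_sdiff.mpr ⟨h1, h2⟩))
            simp only [oldc, Finset.mem_insert, Finset.mem_singleton, e3] at this
            rw [← e3'] at this
            rcases this with h | h | h | h | h | h
            · exact ⟨2, 0, h⟩
            · exact ⟨3, 0, h⟩
            · exact ⟨6, 1, h⟩
            · exact ⟨7, 1, h⟩
            · exact ⟨10, 2, h⟩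
            · exact ⟨11, 2, h⟩
          · have : cell i t ∈ oldc r₁ c₁ x s := by
              by_contra h2
              exact h1 (Finset.mem_union_left _ (Finset.mem_sdiff.mpr ⟨h, h2⟩))
            simp only [oldc, Finset.mem_insert, Finset.mem_singleton] at this
            rcases this with h | h | h | h | h | h
            · exact ⟨0, 0, h⟩
            · exact ⟨1, 0, h⟩
            · exact ⟨4, 1, h⟩
            · exact ⟨5, 1, h⟩
            · exact ⟨8, 2, h⟩
            · exact ⟨9, 2, h⟩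
        obtain ⟨j, k, hjk⟩ := hex
        exact Finset.mem_image.mpr ⟨j, Finset.mem_univ _, (cell_inj _ _ _ _ hjk).symm⟩
      · refine Finset.mem_union_left _ ?_
        simp only [lost, Finset.mem_filter, Finset.mem_univ, true_and]
        exact ⟨i, hi, h⟩
    refine (Finset.card_le_card hsub).trans ((Finset.card_union_le _ _).trans ?_)
    refine Nat.add_le_add hlost ?_
    refine Finset.card_image_le.trans ?_
    simp

end Pool.Agent.Q230.NA7
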