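import Mathlib
import Pool.Agent.Q88.MF.Stm

/-!
# Project MF, part CLS: the map is in the class (helper230)
-/

set_option autoImplicit false

open Set MeasureTheory Filter Topology
open scoped ContDiff ENNReal NNReal

noncomputable section

namespace Pool.Agent.Q88.MF

theorem cls (h : S_lff) (h1 : S_deb) (h2 : S_wde) (h3 : S_nul) (h4 : S_int) (h5 : S_mea) : S_cls := by
  intro d a ha had e he
  obtain ⟨L0, hL0⟩ := h d a ha
  set L : ℝ≥0 := max L0 1 with hLdef
  have hL : LipschitzWith L (F d a) := hL0.weaken (le_max_left _ _)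
  have hL1 : (1 : ℝ) ≤ (L : ℝ) := by exact_mod_cast le_max_right L0 1
  have hfe : (e : E (d + 1) → E (d + 1)) = F d a := funext he
  set D : E (d + 1) → (E (d + 1) →L[ℝ] E (d + 1)) := fderiv ℝ (F d a) with hD
  have hDn : ∀ x, ‖D x‖ ≤ L := fun x => norm_fderiv_le_of_lipschitz ℝ hL
  have hDm : Measurable D := measurable_fderiv ℝ _
  have hdet : Measurable fun x => (D x).det := ContinuousLinearMap.continuous_det.measurable.comp hDm
  obtain ⟨M, hM⟩ : ∃ M : ℝ, ∀ x, ‖(D x).det‖ ≤ M := by
    have hc : IsCompact (Metric.closedBall (0 : E (d + 1) →L[ℝ] E (d + 1)) L) :=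
      isCompact_closedBall _ _
    obtain ⟨M, hM⟩ := hc.exists_bound_of_continuousOn
      (f := fun A : E (d + 1) →L[ℝ] E (d + 1) => A.det) ContinuousLinearMap.continuous_det.continuousOn
    exact ⟨M, fun x => hM _ (by simpa using hDn x)⟩
  have hae : ∀ᵐ x : E (d + 1), 0 < P a (x 0) (rho x) ∧ P a (x 0) (rho x) ≤ (D x).det := by
    filter_upwards [hL.ae_differentiableAt, h3 d] with x hx1 hx2
    exact h1 d a x ha hx2 hx1
  set c : ℝ := (L : ℝ) ^ (d + 1) with hc
  have hc0 : 0 < c := by positivity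
  have hsrc : e.toOpenPartialHomeomorph.source = univ := rfl
  have hcoe : (e.toOpenPartialHomeomorph : E (d + 1) → E (d + 1)) = F d a := hfe
  have hnc : ∀ x, ‖D x‖ ^ (d + 1) ≤ c := fun x => pow_le_pow_left₀ (norm_nonneg _) (hDn x) _
  refine ⟨D, ?_, ?_, ⟨fun x => max 1 (c / P a (x 0) (rho x)), ?_, fun x => le_max_left _ _, ?_⟩, ?_⟩
  · rw [hsrc, hcoe]
    exact h2 (d + 1) (F d a) L hL
  · rw [hsrc, locallyIntegrableOn_univ]
    refine (locallyIntegrable_const (M : ℝ)).mono hdet.aestronglyMeasurable (ae_of_all _ fun x => ?_)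
    exact (hM x).trans (le_abs_self M)
  · exact measurable_const.max (measurable_const.div (h5 d a ha))
  · rw [hsrc, Measure.restrict_univ]
    filter_upwards [hae] with x hx
    have e1 : c = c / P a (x 0) (rho x) * P a (x 0) (rho x) := by
      rw [div_mul_cancel₀ _ hx.1.ne']
    calc ‖D x‖ ^ (d + 1) ≤ c := hnc x
      _ = c / P a (x 0) (rho x) * P a (x 0) (rho x) := e1
      _ ≤ max 1 (c / P a (x 0) (rho x)) * (D x).det :=
          mul_le_mul (le_max_right _ _) hx.2 hx.1.le (le_trans zero_le_one (le_max_left _ _))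
  · rw [hsrc, locallyIntegrableOn_univ, Nat.add_sub_cancel]
    have hKm : Measurable (Kf D) := by
      unfold Kf
      exact Measurable.ite (measurableSet_lt measurable_const hdet)
        ((hDm.norm.pow_const _).div hdet) measurable_const
    refine (h4 d a c ha had hc0).mono (hKm.pow_const d).aestronglyMeasurable ?_
    filter_upwards [hae] with x hx
    have hd0 : 0 < (D x).det := hx.1.trans_le hx.2
    have e1 : Kf D x = ‖D x‖ ^ (d + 1) / (D x).det := by
      unfold Kf
      rw [if_pos hd0]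
    have e2 : 0 ≤ Kf D x := by
      rw [e1]
      positivity
    have e3 : Kf D x ≤ max 1 (c / P a (x 0) (rho x)) := by
      rw [e1]
      refine le_trans ?_ (le_max_right _ _)
      exact div_le_div₀ hc0.le (hnc x) hx.1 hx.2
    have e4 : (0 : ℝ) ≤ max 1 (c / P a (x 0) (rho x)) := le_trans zero_le_one (le_max_left _ _)
    rw [Real.norm_of_nonneg (pow_nonneg e2 d), Real.norm_of_nonneg (pow_nonneg e4 d)]
    exact pow_le_pow_left₀ e2 e3 d

end Pool.Agent.Q88.MF
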