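import Mathlib
import Pool.Agent.Q82.QC.Stm

/-!
# Project QC, part RAT: near the points of concentration the approximate solution is a bubble
-/

set_option autoImplicit false

open MeasureTheory Filter Topology Real InnerProductSpace Laplacian

namespace Pool.Agent.Q82.QC

/-- The filter of the pairs `(β, x)` with `β → ∞` and `‖x - a‖ ≤ 2 / β`. -/
private noncomputable def rat_F (a : E) : Filter (ℝ × E) :=
  (atTop ×ˢ 𝓟 (Set.univ : Set E)) ⊓ 𝓟 {p | ‖p.2 - a‖ ≤ 2 / p.1}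

private lemma rat_ev (a : E) (P : ℝ → E → Prop) (h : ∀ᶠ p in rat_F a, P p.1 p.2) :
    ∀ᶠ β : ℝ in atTop, ∀ x : E, ‖x - a‖ ≤ 2 / β → P β x := by
  unfold rat_F at h
  rw [Filter.eventually_inf_principal, Filter.eventually_prod_principal_iff] at h
  filter_upwards [h] with β hβ x hx
  exact hβ x (Set.mem_univ _) hx

private lemma rat_fst (a : E) : Tendsto (fun p : ℝ × E => p.1) (rat_F a) atTop := by
  unfold rat_F
  exact (Filter.tendsto_fst (f := atTop) (g := 𝓟 (Set.univ : Set E))).mono_left inf_le_left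

private lemma rat_mem (a : E) : ∀ᶠ p in rat_F a, ‖p.2 - a‖ ≤ 2 / p.1 := by
  unfold rat_F
  exact Filter.mem_inf_of_right (Filter.mem_principal_self _)

private lemma rat_inv (a : E) : Tendsto (fun p : ℝ × E => 2 / p.1) (rat_F a) (𝓝 0) :=
  Tendsto.div_atTop tendsto_const_nhds (rat_fst a)

private lemma rat_snd (a : E) : Tendsto (fun p : ℝ × E => p.2) (rat_F a) (𝓝 a) := by
  rw [tendsto_iff_norm_sub_tendsto_zero]
  exact squeeze_zero' (Eventually.of_forall fun p => norm_nonneg _) (rat_mem a) (rat_inv a)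

private lemma rat_snd0 (a : E) : Tendsto (fun p : ℝ × E => p.2 0) (rat_F a) (𝓝 (a 0)) := by
  have h : Continuous (fun x : E => x 0) := by fun_prop
  exact (h.tendsto a).comp (rat_snd a)

private lemma rat_pp {x : E} (hx : x 0 < 2) : 0 < ‖x - pp‖ := by
  rw [norm_pos_iff, sub_ne_zero]
  intro h
  have h1 : x 0 = 10 := by
    rw [h]
    simp [pp]
  linarith

private lemma rat_HH {A : Finset E} (hA : GoodA A) {a : E} (ha : a ∈ A) : 0 < HH A a := by
  unfold HH
  refine Finset.prod_pos fun b hb => ?_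
  have h1 : 0 < ‖a - pp‖ := rat_pp (by rw [hA a ha]; norm_num)
  have h2 : 0 < ‖a - b‖ := by
    rw [norm_pos_iff, sub_ne_zero]
    exact (Finset.ne_of_mem_erase hb).symm
  positivity

private lemma rat_ep {A : Finset E} (hA : GoodA A) (β : ℝ) {a : E} (ha : a ∈ A) :
    0 < ep A β a := by
  unfold ep
  have := rat_HH hA ha
  positivity

/-- The factor of the point `b`. -/
private noncomputable def rat_S (A : Finset E) (b : E) (p : ℝ × E) : ℝ :=
  (ep A p.1 b ^ 2 + ‖p.2 - b‖ ^ 2) / ‖p.2 - pp‖ ^ 2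

/-- The quotient of `B` and `6 exp (4 W)`. -/
private noncomputable def rat_G (A : Finset E) (p : ℝ × E) : ℝ :=
  Real.exp (-(4 * (p.1 * (phi p.2 + 4 / 3)))) *
    ∑ c ∈ A, HH A c ^ 4 * ∏ b ∈ A.erase c, rat_S A b p ^ 4

private lemma rat_id (h1 : S_WP) {A : Finset E} (hA : GoodA A) (β : ℝ) {x : E} (hx : x ∈ Om) :
    B A β x = 6 * Real.exp (4 * W A β x) * rat_G A (β, x) := by
  have hN : 0 < ‖x - pp‖ := rat_pp hx.2
  unfold B rat_G
  rw [h1 A hA β x hx, Finset.mul_sum, Finset.mul_sum]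
  refine Finset.sum_congr rfl fun c hc => ?_
  have hT : ∀ b ∈ A, 0 < ep A β b ^ 2 + ‖x - b‖ ^ 2 := fun b hb => by
    have := rat_ep hA β hb
    positivity
  have hTc := hT c hc
  rw [← Finset.mul_prod_erase A _ hc]
  have hP : (∏ b ∈ A.erase c, (‖x - pp‖ ^ 2 / (ep A β b ^ 2 + ‖x - b‖ ^ 2)) ^ 4) *
      (∏ b ∈ A.erase c, rat_S A b (β, x) ^ 4) = 1 := by
    rw [← Finset.prod_mul_distrib]
    refine Finset.prod_eq_one fun b hb => ?_
    have hTb := hT b (Finset.mem_of_mem_erase hb)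
    unfold rat_S
    simp only
    field_simp
  have hE : Real.exp (4 * β * phi x) * Real.exp (-(4 * (β * (phi x + 4 / 3)))) =
      Real.exp (-(4 / 3) * β) ^ 4 := by
    rw [← Real.exp_add, ← Real.exp_nat_mul]
    congr 1
    push_cast
    ring
  have hbd : bd (ep A β c) (x - c) = 6 * (Real.exp (-(4 / 3) * β) ^ 4) * HH A c ^ 4 /
      (ep A β c ^ 2 + ‖x - c‖ ^ 2) ^ 4 := by
    unfold bd
    congr 1
    unfold ep
    ring
  rw [hbd, ← hE]
  generalize hP1 : (∏ b ∈ A.erase c, (‖x - pp‖ ^ 2 / (ep A β b ^ 2 + ‖x - b‖ ^ 2)) ^ 4) = P1 at hP ⊢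
  generalize hP2 : (∏ b ∈ A.erase c, rat_S A b (β, x) ^ 4) = P2 at hP ⊢
  generalize ep A β c ^ 2 + ‖x - c‖ ^ 2 = T at hTc ⊢
  generalize Real.exp (4 * β * phi x) = X
  simp only
  generalize Real.exp (-(4 * (β * (phi x + 4 / 3)))) = Y
  generalize HH A c = H
  generalize ‖x - pp‖ = N at hN ⊢
  have e1 : 6 * (X / N ^ 8 * ((N ^ 2 / T) ^ 4 * P1)) * (Y * (H ^ 4 * P2)) =
      6 * X * Y * H ^ 4 * (P1 * P2) * ((N ^ 2 / T) ^ 4 / N ^ 8) := by ring
  rw [e1, hP]
  field_simp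

private lemma rat_eps (A : Finset E) (a b : E) :
    Tendsto (fun p : ℝ × E => ep A p.1 b) (rat_F a) (𝓝 0) := by
  have h : Tendsto (fun β : ℝ => ep A β b) atTop (𝓝 0) := by
    unfold ep
    have h0 : Tendsto (fun β : ℝ => Real.exp (-(4 / 3) * β)) atTop (𝓝 0) := by
      refine Real.tendsto_exp_atBot.comp ?_
      exact Tendsto.const_mul_atTop_of_neg (by norm_num) tendsto_id
    have h2 := (h0.mul_const (HH A b)).div_const 2
    simpa using h2
  exact h.comp (rat_fst a)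

private lemma rat_Slim (A : Finset E) (hA : GoodA A) (a : E) (ha : a ∈ A) (b : E) :
    Tendsto (fun p : ℝ × E => rat_S A b p) (rat_F a) (𝓝 (‖a - b‖ ^ 2 / ‖a - pp‖ ^ 2)) := by
  unfold rat_S
  have h1 : 0 < ‖a - pp‖ := rat_pp (by rw [hA a ha]; norm_num)
  have h2 : Tendsto (fun p : ℝ × E => ep A p.1 b ^ 2 + ‖p.2 - b‖ ^ 2) (rat_F a)
      (𝓝 (0 ^ 2 + ‖a - b‖ ^ 2)) :=
    ((rat_eps A a b).pow 2).add ((((rat_snd a).sub_const b).norm).pow 2)
  have h3 : Tendsto (fun p : ℝ × E => ‖p.2 - pp‖ ^ 2) (rat_F a) (𝓝 (‖a - pp‖ ^ 2)) :=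
    (((rat_snd a).sub_const pp).norm).pow 2
  have h4 := h2.div h3 (by positivity)
  rw [show (0 : ℝ) ^ 2 + ‖a - b‖ ^ 2 = ‖a - b‖ ^ 2 by ring] at h4
  exact h4

private lemma rat_exp (A : Finset E) (hA : GoodA A) (a : E) (ha : a ∈ A) :
    Tendsto (fun p : ℝ × E => Real.exp (-(4 * (p.1 * (phi p.2 + 4 / 3))))) (rat_F a) (𝓝 1) := by
  have hx : ∀ x : E, phi x + 4 / 3 = (x 0 + 1) ^ 2 * ((2 - x 0) / 3) := fun x => by
    unfold phi
    ring
  have h1 : Tendsto (fun p : ℝ × E => p.1 * (p.2 0 + 1) ^ 2) (rat_F a) (𝓝 0) := by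
    have h2 : Tendsto (fun p : ℝ × E => 2 * (2 / p.1)) (rat_F a) (𝓝 0) := by
      simpa using (rat_inv a).const_mul 2
    refine squeeze_zero' ?_ ?_ h2
    · filter_upwards [(rat_fst a).eventually_gt_atTop 0] with p hp
      positivity
    · filter_upwards [(rat_fst a).eventually_gt_atTop 0, rat_mem a] with p hp hq
      have h3 : |p.2 0 + 1| ≤ 2 / p.1 := by
        have h4 : |(p.2 - a) 0| ≤ ‖p.2 - a‖ := by
          have := EuclideanSpace.norm_eq (p.2 - a)
          have h5 := PiLp.norm_apply_le (p.2 - a) 0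
          simpa [Real.norm_eq_abs] using h5
        have h6 : (p.2 - a) 0 = p.2 0 + 1 := by
          rw [PiLp.sub_apply, hA a ha]
          ring
        rw [h6] at h4
        exact h4.trans hq
      have h7 : (p.2 0 + 1) ^ 2 ≤ (2 / p.1) ^ 2 := by
        rw [← sq_abs]
        exact pow_le_pow_left₀ (abs_nonneg _) h3 2
      calc p.1 * (p.2 0 + 1) ^ 2 ≤ p.1 * (2 / p.1) ^ 2 := by gcongr
        _ = 2 * (2 / p.1) := by field_simp
  have h8 : Tendsto (fun p : ℝ × E => (2 - p.2 0) / 3) (rat_F a) (𝓝 ((2 - a 0) / 3)) :=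
    ((rat_snd0 a).const_sub 2).div_const 3
  have h9 : Tendsto (fun p : ℝ × E => -(4 * (p.1 * (phi p.2 + 4 / 3)))) (rat_F a) (𝓝 0) := by
    have h10 := ((h1.mul h8).const_mul 4).neg
    simp only [zero_mul, mul_zero, neg_zero] at h10
    refine h10.congr fun p => ?_
    rw [hx]
    ring
  have h11 := (Real.continuous_exp.tendsto 0).comp h9
  rw [Real.exp_zero] at h11
  exact h11

private lemma rat_lim (A : Finset E) (hA : GoodA A) (a : E) (ha : a ∈ A) :
    Tendsto (rat_G A) (rat_F a) (𝓝 1) := by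
  have hN : 0 < ‖a - pp‖ := rat_pp (by rw [hA a ha]; norm_num)
  have h1 : Tendsto (fun p : ℝ × E => ∑ c ∈ A, HH A c ^ 4 * ∏ b ∈ A.erase c, rat_S A b p ^ 4)
      (rat_F a) (𝓝 (∑ c ∈ A, HH A c ^ 4 *
        ∏ b ∈ A.erase c, (‖a - b‖ ^ 2 / ‖a - pp‖ ^ 2) ^ 4)) := by
    refine tendsto_finsetSum _ fun c _ => ?_
    refine Tendsto.const_mul _ ?_
    exact tendsto_finsetProd _ fun b _ => (rat_Slim A hA a ha b).pow 4
  have h2 : (∑ c ∈ A, HH A c ^ 4 * ∏ b ∈ A.erase c, (‖a - b‖ ^ 2 / ‖a - pp‖ ^ 2) ^ 4) = 1 := by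
    rw [Finset.sum_eq_single a]
    · unfold HH
      rw [← Finset.prod_pow, ← Finset.prod_mul_distrib]
      refine Finset.prod_eq_one fun b hb => ?_
      have h3 : 0 < ‖a - b‖ := by
        rw [norm_pos_iff, sub_ne_zero]
        exact (Finset.ne_of_mem_erase hb).symm
      field_simp
    · intro c _ hca
      rw [Finset.prod_eq_zero (Finset.mem_erase.2 ⟨hca.symm, ha⟩), mul_zero]
      simp
    · intro h
      exact absurd ha h
  rw [h2] at h1
  have h3 := (rat_exp A hA a ha).mul h1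
  rw [mul_one] at h3
  exact h3

/-- Near the points of concentration the approximate solution is a bubble. -/
theorem rat (h1 : S_WP) : S_RAT := by
  intro A hA η hη
  rw [Filter.eventually_all_finset]
  intro a ha
  refine rat_ev a (fun β x => |B A β x - 6 * Real.exp (4 * W A β x)| ≤
    η * (6 * Real.exp (4 * W A β x))) ?_
  have hO1 : ∀ᶠ p in rat_F a, -2 < p.2 0 :=
    (rat_snd0 a).eventually_const_lt (by rw [hA a ha]; norm_num)
  have hO2 : ∀ᶠ p in rat_F a, p.2 0 < 2 :=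
    (rat_snd0 a).eventually_lt_const (by rw [hA a ha]; norm_num)
  have hG : ∀ᶠ p in rat_F a, |rat_G A p - 1| < η := by
    have := (Metric.tendsto_nhds.1 (rat_lim A hA a ha)) η hη
    simpa [Real.dist_eq] using this
  filter_upwards [hO1, hO2, hG] with p hp1 hp2 hp3
  have hid := rat_id h1 hA p.1 (x := p.2) ⟨hp1, hp2⟩
  have hpos : 0 < 6 * Real.exp (4 * W A p.1 p.2) := by positivity
  rw [hid]
  have e1 : 6 * Real.exp (4 * W A p.1 p.2) * rat_G A (p.1, p.2) - 6 * Real.exp (4 * W A p.1 p.2) =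
      (6 * Real.exp (4 * W A p.1 p.2)) * (rat_G A p - 1) := by
    ring
  rw [e1, abs_mul, abs_of_pos hpos, mul_comm η]
  exact mul_le_mul_of_nonneg_left hp3.le hpos.le

end Pool.Agent.Q82.QC
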