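import Pool.Agent.Q82.QD.Stm

/-!
# Project QD, job ZE: derivatives of radial functions
-/

set_option autoImplicit false

open MeasureTheory Filter Topology Real InnerProductSpace Laplacian Set
open Pool.Agent.Q82.QC (E)

namespace Pool.Agent.Q82.QD

theorem ze_iter (h : ℝ → ℝ) (c : ℝ) (n : ℕ) :
    iteratedDeriv n (fun t => h (c * t)) = fun t => c ^ n * iteratedDeriv n h (c * t) := by
  induction n with
  | zero => funext t; simp
  | succ n ih =>
    funext t
    rw [iteratedDeriv_succ, ih, deriv_const_mul_field, deriv_comp_mul_left c (iteratedDeriv n h) t,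
      iteratedDeriv_succ, smul_eq_mul, pow_succ]
    ring

theorem ze_iter' (h : ℝ → ℝ) (c k : ℝ) (n : ℕ) (hn : 1 ≤ n) (t : ℝ) :
    iteratedDeriv n (fun t => h (c * t) - k) t = c ^ n * iteratedDeriv n h (c * t) := by
  have h1 : iteratedDeriv n (fun t => h (c * t) - k) = iteratedDeriv n (fun t => h (c * t)) := by
    obtain ⟨m, rfl⟩ : ∃ m, n = m + 1 := ⟨n - 1, by omega⟩
    rw [iteratedDeriv_succ', iteratedDeriv_succ']
    congr 1
    funext x
    rw [deriv_sub_const_fun]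
  rw [h1, ze_iter]

theorem ze_sq (y : E) (i : ℕ) (hi : 1 ≤ i) (hy : 0 < ‖y‖) :
    ‖iteratedFDeriv ℝ i (fun y : E => ‖y‖ ^ 2) y‖ ≤ ‖y‖ ^ 2 * (2 / ‖y‖) ^ i := by
  have hn : ∀ z : E, ‖(2 • innerSL ℝ (E := E)) z‖ ≤ 2 * ‖z‖ := by
    intro z
    have h1 : (2 • innerSL ℝ (E := E)) z = (2 : ℝ) • innerSL ℝ z := by
      simp [two_smul]
    rw [h1, norm_smul, innerSL_apply_norm]
    simp
  rcases Nat.lt_or_ge i 3 with h3 | h3
  · rcases Nat.lt_or_ge i 2 with h2 | h2
    · obtain rfl : i = 1 := by omega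
      rw [norm_iteratedFDeriv_one, fderiv_norm_sq]
      refine (hn y).trans (le_of_eq ?_)
      field_simp
    · obtain rfl : i = 2 := by omega
      rw [← norm_iteratedFDeriv_fderiv, fderiv_norm_sq, norm_iteratedFDeriv_one]
      have h4 : fderiv ℝ (2 • ⇑(innerSL ℝ (E := E))) y = 2 • innerSL ℝ (E := E) :=
        ContinuousLinearMap.fderiv (2 • innerSL ℝ (E := E))
      rw [h4]
      have h5 : ‖(2 • innerSL ℝ (E := E))‖ ≤ 2 :=
        ContinuousLinearMap.opNorm_le_bound _ (by norm_num) hn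
      refine h5.trans ?_
      have h6 : ‖y‖ ^ 2 * (2 / ‖y‖) ^ 2 = 4 := by
        field_simp
        norm_num
      rw [h6]
      norm_num
  · obtain ⟨m, rfl⟩ : ∃ m, i = m + 1 + 1 + 1 := ⟨i - 3, by omega⟩
    rw [← norm_iteratedFDeriv_fderiv, fderiv_norm_sq, ← norm_iteratedFDeriv_fderiv]
    have h4 : fderiv ℝ (2 • ⇑(innerSL ℝ (E := E))) = fun _ => 2 • innerSL ℝ (E := E) := by
      funext z
      exact ContinuousLinearMap.fderiv (2 • innerSL ℝ (E := E))
    rw [h4, iteratedFDeriv_const_of_ne (by omega)]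
    simp only [Pi.zero_apply, norm_zero]
    positivity

theorem ze : S_ZE := by
  intro h C hs hb
  have hC : 0 ≤ C := by
    have := (abs_nonneg _).trans (hb 1 le_rfl (by norm_num) 1 le_rfl)
    simpa using this
  refine ⟨24 * C * 16 + 1, by positivity, ?_⟩
  intro m hm1 hm4 y hy
  set ρ : ℝ := ‖y‖ with hρ
  have hρ0 : 0 < ρ := by linarith
  have hρ2 : 1 ≤ ρ ^ 2 := by nlinarith
  set c : ℝ := ρ ^ 2 with hc
  have hc0 : 0 < c := by positivity
  set g : ℝ → ℝ := fun t => h (c * t) - h c with hg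
  set f : E → ℝ := fun z => c⁻¹ * ‖z‖ ^ 2 with hf
  have hgs : ContDiffOn ℝ (m : ℕ) g (Ioi 0) := by
    refine ContDiffOn.sub ?_ contDiffOn_const
    refine (hs m).comp (by fun_prop) ?_
    intro t ht
    exact mul_pos hc0 ht
  have hfs' : ContDiff ℝ (m : ℕ) f := by
    exact contDiff_const.mul (contDiff_norm_sq ℝ)
  have hU : IsOpen {z : E | z ≠ 0} := isOpen_ne
  have hy0 : y ≠ 0 := by
    rw [← norm_pos_iff]; exact hρ0
  have hfy : f y = 1 := by
    simp only [hf]
    rw [← hρ, ← hc, inv_mul_cancel₀ hc0.ne']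
  have hmaps : MapsTo f {z : E | z ≠ 0} (Ioi 0) := by
    intro z hz
    have : 0 < ‖z‖ := norm_pos_iff.2 hz
    simp only [hf, mem_Ioi]
    positivity
  have key := norm_iteratedFDerivWithin_comp_le (𝕜 := ℝ) (g := g) (f := f) (n := m)
    (s := {z : E | z ≠ 0}) (t := Ioi 0) (x := y) hgs hfs'.contDiffOn le_rfl
    isOpen_Ioi.uniqueDiffOn hU.uniqueDiffOn hmaps hy0 (C := C) (D := 2 / ρ) ?_ ?_
  · rw [iteratedFDerivWithin_of_isOpen m hU hy0] at key
    have hgf : (g ∘ f) = fun z : E => h (‖z‖ ^ 2) - h c := by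
      funext z
      simp only [hg, hf, Function.comp_apply]
      rw [mul_inv_cancel_left₀ hc0.ne']
    have e1 : ‖iteratedFDeriv ℝ m (g ∘ f) y‖ =
        ‖iteratedFDeriv ℝ m (fun z : E => h (‖z‖ ^ 2)) y‖ := by
      rw [hgf]
      obtain ⟨k, rfl⟩ : ∃ k, m = k + 1 := ⟨m - 1, by omega⟩
      rw [← norm_iteratedFDeriv_fderiv, ← norm_iteratedFDeriv_fderiv]
      have e2 : fderiv ℝ (fun z : E => h (‖z‖ ^ 2) - h c) =
          fderiv ℝ (fun z : E => h (‖z‖ ^ 2)) := by
        funext z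
        rw [fderiv_sub_const]
      rw [e2]
    rw [← e1]
    refine key.trans ?_
    have h24 : ((m.factorial : ℕ) : ℝ) ≤ 24 := by
      have : m.factorial ≤ Nat.factorial 4 := Nat.factorial_le hm4
      have h5 : Nat.factorial 4 = 24 := rfl
      rw [h5] at this
      exact_mod_cast this
    have h16 : (2 : ℝ) ^ m ≤ 16 := by
      calc (2 : ℝ) ^ m ≤ 2 ^ 4 := pow_le_pow_right₀ (by norm_num) hm4
        _ = 16 := by norm_num
    rw [div_pow, mul_div_assoc']
    gcongr
    calc ((m.factorial : ℕ) : ℝ) * C * 2 ^ m ≤ 24 * C * 16 := by gcongr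
      _ ≤ 24 * C * 16 + 1 := by linarith
  · intro i hi
    have hfm : f y ∈ Ioi (0 : ℝ) := by
      rw [hfy]
      exact Set.mem_Ioi.2 one_pos
    rw [iteratedFDerivWithin_of_isOpen i isOpen_Ioi hfm, hfy,
      norm_iteratedFDeriv_eq_norm_iteratedDeriv, Real.norm_eq_abs]
    rcases Nat.eq_zero_or_pos i with h0 | h0
    · subst h0
      simp only [iteratedDeriv_zero, hg, mul_one, sub_self, abs_zero]
      exact hC
    · rw [ze_iter' h c (h c) i h0, mul_one, abs_mul, abs_of_pos (by positivity : (0 : ℝ) < c ^ i)]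
      have h5 := hb i h0 (hi.trans hm4) c hρ2
      rw [le_div_iff₀ (by positivity)] at h5
      linarith
  · intro i hi1 him
    rw [iteratedFDerivWithin_of_isOpen i hU hy0]
    have h6 : f = c⁻¹ • fun z : E => ‖z‖ ^ 2 := by
      funext z
      simp [hf]
    rw [h6, iteratedFDeriv_const_smul_apply (contDiff_norm_sq ℝ).contDiffAt, norm_smul,
      Real.norm_eq_abs, abs_of_pos (by positivity : (0 : ℝ) < c⁻¹)]
    have h7 := ze_sq y i hi1 hρ0
    rw [← hρ] at h7
    rw [inv_mul_le_iff₀ hc0]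
    exact h7

end Pool.Agent.Q82.QD
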