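import Mathlib
import Pool.Agent.Helper247.UecPcp
import Pool.Agent.Helper247.Univ

/-!
From a two-letter block queue system to a correspondence instance which has unique equality
continuation if and only if the halting word is not reached.
-/

set_option autoImplicit false

namespace Pool.Agent.Q230.UE

open Relation Pool.Agent.Helper247.Queue Pool.Agent.Helper247.UecPcp Turing
open Pool.Agent.Helper247 (Univ.u)

section

variable {S : Type} (P : S → S → List S) (K : S)
variable [Fintype S] (c : S × Bool → ℕ)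

/-- The words consumed by the dominoes. There are two families of end dominoes. -/
noncomputable def G2 : List (List ℕ) :=
  [0] :: [c (K, false), 1] :: [c (K, true), 1] :: [c (K, false), 2] :: [c (K, true), 2] ::
    (pairs S).map (fun p => [c p.1, c p.2])

/-- The words produced by the dominoes other than the start domino. -/
noncomputable def H2tail : List (List ℕ) :=
  [1] :: [1] :: [2] :: [2] :: (pairs S).map (fun p => (Phat P p.1 p.2).map c)

/-- The words produced by the dominoes, for the start word `w`. -/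
noncomputable def H2 (w : List ℕ) : List (List ℕ) := (0 :: w) :: H2tail P c

theorem length_eq2 (w : List ℕ) : (H2 P c w).length = (G2 K c).length := by
  simp [H2, H2tail, G2]

theorem dom_cases2 (w : List ℕ) {i : ℕ} (hi : i < (H2 P c w).length) :
    (i = 0 ∧ (G2 K c).getD i [] = [0] ∧ (H2 P c w).getD i [] = 0 :: w) ∨
    (∃ b e, (e = 1 ∨ e = 2) ∧ (G2 K c).getD i [] = [c (K, b), e] ∧ (H2 P c w).getD i [] = [e]) ∨
    (∃ x y, (G2 K c).getD i [] = [c x, c y] ∧ (H2 P c w).getD i [] = (Phat P x y).map c) := by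
  match i, hi with
  | 0, _ => exact Or.inl ⟨rfl, rfl, rfl⟩
  | 1, _ => exact Or.inr (Or.inl ⟨false, 1, Or.inl rfl, rfl, rfl⟩)
  | 2, _ => exact Or.inr (Or.inl ⟨true, 1, Or.inl rfl, rfl, rfl⟩)
  | 3, _ => exact Or.inr (Or.inl ⟨false, 2, Or.inr rfl, rfl, rfl⟩)
  | 4, _ => exact Or.inr (Or.inl ⟨true, 2, Or.inr rfl, rfl, rfl⟩)
  | k + 5, hi =>
    right; right
    have hk : k < (pairs S).length := by
      simp only [H2, H2tail, List.length_cons, List.length_map] at hi
      omega
    refine ⟨(pairs S)[k].1, (pairs S)[k].2, ?_, ?_⟩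
    · simp [G2, List.getD_eq_getElem?_getD, hk]
    · simp [H2, H2tail, List.getD_eq_getElem?_getD, hk]

theorem dom_exists2 (w : List ℕ) (x y : S × Bool) :
    ∃ i, i < (H2 P c w).length ∧ (G2 K c).getD i [] = [c x, c y] ∧
      (H2 P c w).getD i [] = (Phat P x y).map c := by
  have hmem : (x, y) ∈ pairs S := by simp [pairs]
  obtain ⟨k, hk, hk2⟩ := List.getElem_of_mem hmem
  refine ⟨k + 5, ?_, ?_, ?_⟩
  · simp only [H2, H2tail, List.length_cons, List.length_map]
    omega
  · simp [G2, List.getD_eq_getElem?_getD, hk, hk2]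
  · simp [H2, H2tail, List.getD_eq_getElem?_getD, hk, hk2]

theorem end_exists2 (w : List ℕ) (b : Bool) :
    ∃ i j, i < (H2 P c w).length ∧ j < (H2 P c w).length ∧ i ≠ j ∧
      (G2 K c).getD i [] = [c (K, b), 1] ∧ (H2 P c w).getD i [] = [1] ∧
      (G2 K c).getD j [] = [c (K, b), 2] ∧ (H2 P c w).getD j [] = [2] := by
  cases b
  · exact ⟨1, 3, by simp [H2, H2tail], by simp [H2, H2tail], by decide, rfl, rfl, rfl, rfl⟩
  · exact ⟨2, 4, by simp [H2, H2tail], by simp [H2, H2tail], by decide, rfl, rfl, rfl, rfl⟩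

variable (hc : Function.Injective c) (hc2 : ∀ x, 3 ≤ c x)
variable (hP1 : ∀ x y, 2 ≤ (P x y).length ∨ P x y = [K])
variable (hP2 : ∀ y, (P K y).head? ≠ some y)

include hc hc2 in
theorem G2_nodup : (G2 K c).Nodup := by
  have h1 : ∀ x, c x ≠ 1 := fun x h => by have := hc2 x; omega
  have h2 : ∀ x, c x ≠ 2 := fun x h => by have := hc2 x; omega
  have h3 : ((pairs S).map (fun p => [c p.1, c p.2])).Nodup := by
    refine List.Nodup.map ?_ (Finset.nodup_toList _)
    rintro ⟨a, b⟩ ⟨a', b'⟩ h
    simp only [List.cons.injEq, and_true] at h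
    rw [hc h.1, hc h.2]
  have h4 : c (K, false) ≠ c (K, true) := fun h => by simpa using hc h
  simp only [G2, List.nodup_cons, List.mem_cons, List.mem_map, List.cons.injEq, and_true,
    not_or, not_exists, not_and]
  refine ⟨⟨by simp, by simp, by simp, by simp, by simp⟩,
    ⟨fun h => absurd h h4, fun _ => by simp, fun h => absurd h h4, fun p _ _ => h1 _⟩,
    ⟨fun h => absurd h.symm h4, fun _ => by simp, fun p _ _ => h1 _⟩,
    ⟨fun h => absurd h h4, fun p _ _ => h2 _⟩, fun p _ _ => h2 _, h3⟩

include hc hc2 in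
theorem G2_inj {i j : ℕ} (hi : i < (G2 K c).length) (hj : j < (G2 K c).length)
    (h : (G2 K c).getD i [] = (G2 K c).getD j []) : i = j := by
  rw [List.getD_eq_getElem _ _ hi, List.getD_eq_getElem _ _ hj] at h
  exact ((G2_nodup K c hc hc2).getElem_inj_iff).1 h

include hc hc2 hP1 hP2

omit hP1 hP2 in
theorem next_two2 (w : List ℕ) {i : ℕ} (hi : i < (H2 P c w).length) {x y : S × Bool}
    {t : List (S × Bool)}
    (h : Comp ((x :: y :: t).map c ++ (H2 P c w).getD i []) ((G2 K c).getD i [])) :
    (G2 K c).getD i [] = [c x, c y] ∧ (H2 P c w).getD i [] = (Phat P x y).map c := by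
  have h0 : ∀ x, c x ≠ 0 := fun x h => by have := hc2 x; omega
  rcases dom_cases2 P K c w hi with ⟨-, hg, -⟩ | ⟨b, e, he, hg, -⟩ | ⟨x', y', hg, hh⟩
  · rw [hg] at h
    exact absurd (comp_cons h).1 (h0 _)
  · rw [hg] at h
    have h1 := (comp_cons (comp_cons h).2).1
    have h2 := hc2 y
    exfalso
    rcases he with rfl | rfl <;> omega
  · rw [hg] at h
    have e1 := hc (comp_cons h).1
    have e2 := hc (comp_cons (comp_cons h).2).1
    subst e1 e2
    exact ⟨hg, hh⟩

theorem next_one2 (w : List ℕ) {i : ℕ} (hi : i < (H2 P c w).length) {b : Bool}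
    (h : Comp ([(K, b)].map c ++ (H2 P c w).getD i []) ((G2 K c).getD i [])) :
    ∃ e, (G2 K c).getD i [] = [c (K, b), e] ∧ (H2 P c w).getD i [] = [e] := by
  have h0 : ∀ x, c x ≠ 0 := fun x h => by have := hc2 x; omega
  rcases dom_cases2 P K c w hi with ⟨-, hg, -⟩ | ⟨b', e, -, hg, hh⟩ | ⟨x', y', hg, hh⟩
  · rw [hg] at h
    exact absurd (comp_cons h).1 (h0 _)
  · rw [hg] at h
    have e1 := hc (comp_cons h).1
    simp only [Prod.mk.injEq, true_and] at e1
    subst e1
    exact ⟨e, hg, hh⟩
  · exfalso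
    rw [hg, hh] at h
    have e1 := hc (comp_cons h).1
    have e2 := (comp_cons h).2
    subst e1
    have e3 : Comp ((Phat P (K, b) y').map c) [c y'] := e2
    simp only [Phat] at e3
    rcases hp : P K y'.1 with _ | ⟨p, ps⟩
    · exact P_ne_nil P K hP1 _ _ hp
    · rw [hp] at e3
      simp only [List.map_cons] at e3
      have e4 := hc (comp_cons e3).1
      apply hP2 y'.1
      rw [hp, ← e4]
      rfl

theorem start_only2 (w : List ℕ) {i : ℕ} (hi : i < (H2 P c w).length)
    (h : Comp ((H2 P c w).getD i []) ((G2 K c).getD i [])) :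
    (G2 K c).getD i [] = [0] ∧ (H2 P c w).getD i [] = 0 :: w := by
  rcases dom_cases2 P K c w hi with ⟨-, hg, hh⟩ | ⟨b, e, he, hg, hh⟩ | ⟨x, y, hg, hh⟩
  · exact ⟨hg, hh⟩
  · rw [hg, hh] at h
    have h1 := (comp_cons h).1
    have h2 := hc2 (K, b)
    exfalso
    rcases he with rfl | rfl <;> omega
  · exfalso
    rw [hg, hh, Phat] at h
    rcases hp : P x.1 y.1 with _ | ⟨p, ps⟩
    · exact P_ne_nil P K hP1 _ _ hp
    · rw [hp] at h
      simp only [List.map_cons] at h
      have e := hc (comp_cons h).1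
      have e2 := congrArg Prod.snd e
      simp at e2

theorem inv2 (w0 : List (S × Bool)) (hw : 2 ≤ w0.length) (u : List ℕ) :
    (∀ i ∈ u, i < (H2 P c (w0.map c)).length) →
    Comp (app (H2 P c (w0.map c)) u) (app (G2 K c) u) →
    app (H2 P c (w0.map c)) u = app (G2 K c) u ∨
    ∃ z, app (H2 P c (w0.map c)) u = app (G2 K c) u ++ z.map c ∧
      (2 ≤ z.length ∨ ∃ b, z = [(K, b)]) ∧ QReach (Phat P) w0 z := by
  induction u using List.reverseRecOn with
  | nil => intro _ _; left; rfl
  | append_singleton u i ih =>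
    intro hu hcomp
    have hi : i < (H2 P c (w0.map c)).length := hu i (by simp)
    rw [app_snoc, app_snoc] at hcomp ⊢
    rcases ih (fun j hj => hu j (by simp [hj])) (comp_prefix hcomp) with h | ⟨z, hz, hgood, hr⟩
    · rw [h] at hcomp ⊢
      rw [comp_append_left] at hcomp
      obtain ⟨hg, hh⟩ := start_only2 P K c hc hc2 hP1 hP2 _ hi hcomp
      right
      refine ⟨w0, ?_, Or.inl hw, ReflTransGen.refl⟩
      rw [hg, hh]
      simp
    · rw [hz, List.append_assoc] at hcomp ⊢
      rw [comp_append_left] at hcomp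
      rcases hgood with hgood | ⟨b, rfl⟩
      · match z, hgood, hcomp, hr with
        | x :: y :: t, _, hcomp, hr =>
          obtain ⟨hg, hh⟩ := next_two2 P K c hc hc2 _ hi hcomp
          right
          refine ⟨t ++ Phat P x y, ?_, ?_, hr.tail (QStep.mk x y t)⟩
          · rw [hg, hh]
            simp
          · rcases hP1 x.1 y.1 with h | h
            · left
              simp only [List.length_append, Phat, List.length_map]
              omega
            · rcases t with _ | ⟨t1, t⟩
              · right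
                exact ⟨!x.2, by simp [Phat, h]⟩
              · left
                simp [Phat, h]
      · obtain ⟨e, hg, hh⟩ := next_one2 P K c hc hc2 hP1 hP2 _ hi hcomp
        left
        rw [hg, hh]
        simp

/-- If the halting word is not reached, then the instance has unique equality continuation. -/
theorem uec2 (w0 : List (S × Bool)) (hw : 2 ≤ w0.length)
    (hno : ¬ ∃ b, QReach (Phat P) w0 [(K, b)]) (u : List ℕ)
    (hu : ∀ i ∈ u, i < (H2 P c (w0.map c)).length) (a b : ℕ)
    (ha : a < (H2 P c (w0.map c)).length) (hb : b < (H2 P c (w0.map c)).length) (hab : a ≠ b)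
    (h1 : Comp (app (H2 P c (w0.map c)) (u ++ [a])) (app (G2 K c) (u ++ [a])))
    (h2 : Comp (app (H2 P c (w0.map c)) (u ++ [b])) (app (G2 K c) (u ++ [b]))) :
    app (H2 P c (w0.map c)) u = app (G2 K c) u := by
  rw [app_snoc, app_snoc] at h1 h2
  rcases inv2 P K c hc hc2 hP1 hP2 w0 hw u hu (comp_prefix h1) with h | ⟨z, hz, hgood, hr⟩
  · exact h
  · exfalso
    apply hab
    have hlen := length_eq2 P K c (w0.map c)
    apply G2_inj K c hc hc2 (hlen ▸ ha) (hlen ▸ hb)
    rw [hz, List.append_assoc, comp_append_left] at h1 h2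
    rcases hgood with hgood | ⟨b, rfl⟩
    · match z, hgood, h1, h2 with
      | x :: y :: t, _, h1, h2 =>
        rw [(next_two2 P K c hc hc2 _ ha h1).1, (next_two2 P K c hc hc2 _ hb h2).1]
    · exact absurd ⟨b, hr⟩ hno

omit hc hc2 hP1 hP2 in
theorem reach_key (w0 : List (S × Bool)) (z : List (S × Bool)) (hz : QReach (Phat P) w0 z) :
    ∃ u : List ℕ, (∀ i ∈ u, i < (H2 P c (w0.map c)).length) ∧
      app (H2 P c (w0.map c)) u = app (G2 K c) u ++ z.map c := by
  induction hz with
  | refl =>
    refine ⟨[0], by simp [H2], ?_⟩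
    simp [app, H2, G2]
  | tail _ hs ih =>
    obtain ⟨u, hu, he⟩ := ih
    cases hs with
    | mk x y t =>
      obtain ⟨i, hi, hg, hh⟩ := dom_exists2 P K c (w0.map c) x y
      refine ⟨u ++ [i], ?_, ?_⟩
      · intro j hj
        simp only [List.mem_append, List.mem_singleton] at hj
        rcases hj with hj | rfl
        · exact hu j hj
        · exact hi
      · rw [app_snoc, app_snoc, he, hg, hh]
        simp

omit hc hc2 hP1 hP2 in
/-- If the halting word is reached, then unique equality continuation fails. -/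
theorem not_uec2 (w0 : List (S × Bool)) {b : Bool} (h : QReach (Phat P) w0 [(K, b)]) :
    ∃ u : List ℕ, (∀ i ∈ u, i < (H2 P c (w0.map c)).length) ∧
      ∃ i j, i < (H2 P c (w0.map c)).length ∧ j < (H2 P c (w0.map c)).length ∧ i ≠ j ∧
        app (H2 P c (w0.map c)) (u ++ [i]) = app (G2 K c) (u ++ [i]) ∧
        app (H2 P c (w0.map c)) (u ++ [j]) = app (G2 K c) (u ++ [j]) ∧
        app (H2 P c (w0.map c)) u ≠ app (G2 K c) u := by
  obtain ⟨u, hu, he⟩ := reach_key P K c w0 _ h
  obtain ⟨i, j, hi, hj, hij, hg, hh, hg', hh'⟩ := end_exists2 P K c (w0.map c) b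
  refine ⟨u, hu, i, j, hi, hj, hij, ?_, ?_, ?_⟩
  · rw [app_snoc, app_snoc, he, hg, hh]
    simp
  · rw [app_snoc, app_snoc, he, hg', hh']
    simp
  · rw [he]
    simp

end

end Pool.Agent.Q230.UE
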